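import Pool.Agent.H24.RD.Targets

set_option autoImplicit false

namespace Pool.Agent.H30.RD

open NumberField Height Finset Pool.Agent.H24.RD

/-- An automorphism which fixes the generators fixes the generated field. -/
theorem fix_adjoin (F Ω : Type) [Field F] [Field Ω] [Algebra F Ω] (υ : Ω ≃ₐ[F] Ω) (S : Set Ω)
    (h : ∀ z ∈ S, υ z = z) : ∀ z ∈ IntermediateField.adjoin F S, υ z = z := by
  intro z hz
  induction hz using IntermediateField.adjoin_induction with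
  | mem x hx => exact h x hx
  | algebraMap x => exact υ.commutes x
  | add x y _ _ hx hy => rw [map_add, hx, hy]
  | inv x _ hx => rw [map_inv₀, hx]
  | mul x y _ _ hx hy => rw [map_mul, hx, hy]

theorem stc_core (F Ω : Type) [Field F] [Field Ω] [CharZero Ω] [Algebra F Ω]
    [IsAlgClosed Ω] [Algebra.IsAlgebraic F Ω] [CharZero F] (p : ℕ) (hp : p.Prime) (r : ℕ)
    (γ : Fin r → F) (hγ : ∀ i, γ i ≠ 0) (n m n1 R lam N' K' : ℕ) (hm : m ≤ n1) (_hn1 : 1 ≤ n1)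
    (hn : n1 < n) (hnR : n ≤ n1 + R) (hR : R ≤ n1) (hlam : lam ≤ n1) (hN' : ¬ p ∣ N')
    (hK' : K' ∣ N') (τ : Ω ≃ₐ[F] Ω)
    (hτ : ∀ y : Ω, (y ^ N' = 1 ∨ y ^ (p ^ n1) = 1 ∨
      (∃ i, y ^ (p ^ n1) = algebraMap F Ω (γ i)) ∨ (∃ i, y ^ K' = algebraMap F Ω (γ i))) → τ y = y)
    (ζ : Ω) (hζ : IsPrimitiveRoot ζ (p ^ n)) (hτζ : τ ζ ≠ ζ) (β : Ω)
    (hβM : β ∈ Lv F Ω γ (p ^ n * N') (p ^ m * K')) (hβ : β ≠ 0)
    (hβτ : (τ β) ^ (p ^ lam) = β ^ (p ^ lam)) :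
    ∃ i : ℕ, β / ζ ^ i ∈ Lv F Ω γ (p ^ (n - 1) * N') (p ^ m * K') := by
  have : IsAlgClosure F Ω := ⟨inferInstance, inferInstance⟩
  have : Normal F Ω := IsAlgClosure.normal F Ω
  have : IsGalois F Ω := {}
  have hγΩ : ∀ i, algebraMap F Ω (γ i) ≠ 0 := fun i => by
    rw [Ne, map_eq_zero]
    exact hγ i
  have hpn : ∀ k : ℕ, p ^ k ≠ 0 := fun k => pow_ne_zero _ hp.ne_zero
  have hN0 : N' ≠ 0 := by
    rintro rfl
    exact hN' (dvd_zero p)
  have hK0 : K' ≠ 0 := by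
    rintro rfl
    exact hN0 (Nat.eq_zero_of_zero_dvd hK')
  have hcopN : ∀ k, Nat.Coprime (p ^ k) N' := fun k =>
    Nat.Coprime.pow_left _ ((Nat.Prime.coprime_iff_not_dvd hp).2 hN')
  have hcopK : ∀ k, Nat.Coprime (p ^ k) K' := fun k => Nat.Coprime.coprime_dvd_right hK' (hcopN k)
  have hζ0 : ζ ≠ 0 := hζ.ne_zero (hpn n)
  -- the roots of the `γ i` are fixed
  have hfixγ : ∀ z : Ω, (∃ i, z ^ (p ^ m * K') = algebraMap F Ω (γ i)) → τ z = z := by
    rintro z ⟨i, hz⟩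
    have hz0 : z ≠ 0 := by
      rintro rfl
      rw [zero_pow (mul_ne_zero (hpn m) hK0)] at hz
      exact hγΩ i hz.symm
    obtain ⟨a, b, hab⟩ := (Nat.isCoprime_iff_coprime.2 (hcopK m))
    have h1 : τ (z ^ (p ^ m)) = z ^ (p ^ m) := by
      apply hτ
      right; right; right
      exact ⟨i, by rw [← pow_mul, hz]⟩
    obtain ⟨θ, hθ⟩ := IsAlgClosed.exists_pow_nat_eq (algebraMap F Ω (γ i)) (Nat.pos_of_ne_zero (hpn n1))
    have hθ0 : θ ≠ 0 := by
      rintro rfl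
      rw [zero_pow (hpn n1)] at hθ
      exact hγΩ i hθ.symm
    have h2 : τ θ = θ := hτ θ (Or.inr (Or.inr (Or.inl ⟨i, hθ⟩)))
    have h3 : τ (z ^ K' / θ ^ (p ^ (n1 - m))) = z ^ K' / θ ^ (p ^ (n1 - m)) := by
      apply hτ
      right; left
      have e1 : (z ^ K' / θ ^ (p ^ (n1 - m))) ^ (p ^ m) = 1 := by
        rw [div_pow, ← pow_mul, ← pow_mul, mul_comm K', hz, ← pow_add, Nat.sub_add_cancel hm, hθ,
          div_self (hγΩ i)]
      have e2 : p ^ n1 = p ^ m * p ^ (n1 - m) := by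
        rw [← pow_add]
        congr 1
        omega
      rw [e2, pow_mul, e1, one_pow]
    have h4 : τ (z ^ K') = z ^ K' := by
      have e : z ^ K' = z ^ K' / θ ^ (p ^ (n1 - m)) * θ ^ (p ^ (n1 - m)) := by
        rw [div_mul_cancel₀]
        exact pow_ne_zero _ hθ0
      rw [e, map_mul, h3, map_pow, h2]
    have h5 : z = (z ^ (p ^ m)) ^ a * (z ^ K') ^ b := by
      rw [← zpow_natCast z (p ^ m), ← zpow_natCast z K', ← zpow_mul, ← zpow_mul, ← zpow_add₀ hz0,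
        mul_comm _ a, mul_comm _ b, hab, zpow_one]
    rw [h5, map_mul, map_zpow₀, map_zpow₀, h1, h4]
  -- roots of unity
  have hroot : ∀ z : Ω, z ^ (p ^ n * N') = 1 → ∃ (w : Ω) (k : ℕ), w ^ N' = 1 ∧ z = w * ζ ^ k := by
    intro z hz
    have hz0 : z ≠ 0 := by
      rintro rfl
      rw [zero_pow (mul_ne_zero (hpn n) hN0)] at hz
      exact zero_ne_one hz
    obtain ⟨a, b, hab⟩ := (Nat.isCoprime_iff_coprime.2 (hcopN n))
    have h5 : z = (z ^ (p ^ n)) ^ a * (z ^ N') ^ b := by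
      rw [← zpow_natCast z (p ^ n), ← zpow_natCast z N', ← zpow_mul, ← zpow_mul, ← zpow_add₀ hz0,
        mul_comm _ a, mul_comm _ b, hab, zpow_one]
    have h6 : ((z ^ N') ^ b) ^ (p ^ n) = 1 := by
      rw [← zpow_natCast, zpow_comm, zpow_natCast, ← pow_mul, mul_comm N', hz, one_zpow]
    have h7 : ((z ^ (p ^ n)) ^ a) ^ N' = 1 := by
      rw [← zpow_natCast, zpow_comm, zpow_natCast, ← pow_mul, hz, one_zpow]
    have : NeZero (p ^ n) := ⟨hpn n⟩
    obtain ⟨k, -, hk⟩ := hζ.eq_pow_of_pow_eq_one h6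
    exact ⟨_, k, h7, by rw [hk, ← h5]⟩
  -- automorphisms that fix everything
  have hall : ∀ υ : Ω ≃ₐ[F] Ω, υ ζ = ζ → (∀ w : Ω, w ^ N' = 1 → υ w = w) →
      (∀ z : Ω, (∃ i, z ^ (p ^ m * K') = algebraMap F Ω (γ i)) → υ z = z) →
      ∀ z ∈ Lv F Ω γ (p ^ n * N') (p ^ m * K'), υ z = z := by
    intro υ h1 h2 h3
    apply fix_adjoin
    rintro z (hz | hz)
    · obtain ⟨w, k, hw, rfl⟩ := hroot z hz
      rw [map_mul, map_pow, h1, h2 w hw]
    · exact h3 z hz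
  have hpowfix : ∀ (k : ℕ) (y : Ω), τ y = y → (τ ^ k) y = y := by
    intro k y hy
    induction k with
    | zero => rfl
    | succ k ih => rw [pow_succ', AlgEquiv.mul_apply, ih, hy]
  set ρ : Ω := τ ζ / ζ with hρ
  set X : Ω := τ β / β with hX
  have hρR : ρ ^ (p ^ R) = 1 := by
    have h1 : τ (ζ ^ (p ^ R)) = ζ ^ (p ^ R) := by
      apply hτ
      right; left
      rw [← pow_mul, ← pow_add]
      have : p ^ (R + n1) = p ^ n * p ^ (R + n1 - n) := by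
        rw [← pow_add]
        congr 1
        omega
      rw [this, pow_mul, hζ.pow_eq_one, one_pow]
    rw [hρ, div_pow, ← map_pow, h1, div_self (pow_ne_zero _ hζ0)]
  have hfixp : ∀ (k : ℕ) (y : Ω), k ≤ n1 → y ^ (p ^ k) = 1 → τ y = y := by
    intro k y hk hy
    apply hτ
    right; left
    have : p ^ n1 = p ^ k * p ^ (n1 - k) := by
      rw [← pow_add]
      congr 1
      omega
    rw [this, pow_mul, hy, one_pow]
  have hτρ : τ ρ = ρ := hfixp R ρ hR hρR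
  have hXl : X ^ (p ^ lam) = 1 := by
    rw [hX, div_pow, hβτ, div_self (pow_ne_zero _ hβ)]
  have hτX : τ X = X := hfixp lam X hlam hXl
  have hτζ' : τ ζ = ρ * ζ := by
    rw [hρ, div_mul_cancel₀ _ hζ0]
  have hτβ' : τ β = X * β := by
    rw [hX, div_mul_cancel₀ _ hβ]
  have hkζ : ∀ k : ℕ, (τ ^ k) ζ = ρ ^ k * ζ := by
    intro k
    induction k with
    | zero => simp
    | succ k ih => rw [pow_succ', AlgEquiv.mul_apply, ih, map_mul, map_pow, hτρ, hτζ', pow_succ]; ring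
  have hkβ : ∀ k : ℕ, (τ ^ k) β = X ^ k * β := by
    intro k
    induction k with
    | zero => simp
    | succ k ih => rw [pow_succ', AlgEquiv.mul_apply, ih, map_mul, map_pow, hτX, hτβ', pow_succ]; ring
  have hρ1 : ρ ≠ 1 := by
    intro h
    apply hτζ
    rw [hτζ', h, one_mul]
  -- the order of `ρ`
  obtain ⟨a', ha1, ha2⟩ : ∃ a', ρ ^ (p ^ a') ≠ 1 ∧ ρ ^ (p ^ (a' + 1)) = 1 := by
    classical
    have hex : ∃ k, ρ ^ (p ^ k) = 1 := ⟨R, hρR⟩
    have h0 : Nat.find hex ≠ 0 := by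
      intro h
      have := Nat.find_spec hex
      rw [h, pow_zero, pow_one] at this
      exact hρ1 this
    obtain ⟨k, hk⟩ := Nat.exists_eq_succ_of_ne_zero h0
    refine ⟨k, Nat.find_min hex (by omega), ?_⟩
    have := Nat.find_spec hex
    rw [hk] at this
    exact this
  have hρp : (ρ ^ (p ^ a')) ^ p = 1 := by
    rw [← pow_mul, ← pow_succ]
    exact ha2
  have hprim : IsPrimitiveRoot (ρ ^ (p ^ a')) p := by
    have h1 := orderOf_eq_prime hρp ha1 (hp := ⟨hp⟩)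
    have h2 := IsPrimitiveRoot.orderOf (ρ ^ (p ^ a'))
    rwa [h1] at h2
  have hXp : (X ^ (p ^ a')) ^ p = 1 := by
    rw [← pow_mul, ← pow_succ]
    have h1 : (τ ^ (p ^ (a' + 1))) β = β := by
      apply hall _ _ _ _ β hβM
      · rw [hkζ, ha2, one_mul]
      · intro w hw
        exact hpowfix _ _ (hτ w (Or.inl hw))
      · intro z hz
        exact hpowfix _ _ (hfixγ z hz)
    rw [hkβ] at h1
    exact mul_right_cancel₀ hβ (h1.trans (one_mul β).symm)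
  have : NeZero p := ⟨hp.ne_zero⟩
  obtain ⟨i, -, hi⟩ := hprim.eq_pow_of_pow_eq_one hXp
  refine ⟨i, ?_⟩
  have hζi : ζ ^ i ≠ 0 := pow_ne_zero _ hζ0
  -- the power of `τ` fixes the quotient
  have hfix1 : (τ ^ (p ^ a')) (β / ζ ^ i) = β / ζ ^ i := by
    have hX0 : X ^ (p ^ a') ≠ 0 := by
      rw [← hi]
      exact pow_ne_zero _ (hprim.ne_zero hp.ne_zero)
    rw [map_div₀, map_pow, hkβ, hkζ, mul_pow, hi, mul_div_mul_left _ _ hX0]
  have hζM : ζ ∈ Lv F Ω γ (p ^ n * N') (p ^ m * K') := by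
    apply IntermediateField.subset_adjoin
    left
    rw [pow_mul, hζ.pow_eq_one, one_pow]
  have hgal := InfiniteGalois.fixedField_fixingSubgroup (Lv F Ω γ (p ^ (n - 1) * N') (p ^ m * K'))
  rw [← hgal, IntermediateField.mem_fixedField_iff]
  intro σ hσ
  rw [IntermediateField.mem_fixingSubgroup_iff] at hσ
  have hσζ : (σ ζ / ζ) ^ p = 1 := by
    have h1 : σ (ζ ^ p) = ζ ^ p := by
      apply hσ
      apply IntermediateField.subset_adjoin
      left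
      rw [← pow_mul, ← mul_assoc, ← pow_succ', Nat.sub_add_cancel (by omega), pow_mul,
        hζ.pow_eq_one, one_pow]
    rw [div_pow, ← map_pow, h1, div_self (pow_ne_zero _ hζ0)]
  obtain ⟨k, -, hk⟩ := hprim.eq_pow_of_pow_eq_one hσζ
  have hσζ2 : σ ζ = (ρ ^ (p ^ a')) ^ k * ζ := by
    rw [hk, div_mul_cancel₀ _ hζ0]
  have hυ : ∀ z ∈ Lv F Ω γ (p ^ n * N') (p ^ m * K'), ((τ ^ (p ^ a' * k))⁻¹ * σ) z = z := by
    have hinv : ∀ x y : Ω, (τ ^ (p ^ a' * k)) y = x → (τ ^ (p ^ a' * k))⁻¹ x = y := by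
      intro x y h
      rw [← h, ← AlgEquiv.mul_apply, inv_mul_cancel]
      rfl
    apply hall
    · rw [AlgEquiv.mul_apply]
      apply hinv
      rw [hkζ, pow_mul, hσζ2]
    · intro w hw
      rw [AlgEquiv.mul_apply]
      apply hinv
      rw [hpowfix _ _ (hτ w (Or.inl hw))]
      symm
      apply hσ
      apply IntermediateField.subset_adjoin
      left
      rw [mul_comm, pow_mul, hw, one_pow]
    · intro z hz
      rw [AlgEquiv.mul_apply]
      apply hinv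
      rw [hpowfix _ _ (hfixγ z hz)]
      symm
      apply hσ
      apply IntermediateField.subset_adjoin
      right
      exact hz
  have h1 := hυ (β / ζ ^ i) (div_mem hβM (pow_mem hζM i))
  have h2 : σ (β / ζ ^ i) = (τ ^ (p ^ a' * k)) (β / ζ ^ i) := by
    conv_rhs => rw [← h1]
    rw [← AlgEquiv.mul_apply, mul_inv_cancel_left]
  rw [h2, pow_mul]
  clear h1 h2 hυ
  generalize hq : τ ^ (p ^ a') = q at hfix1
  clear hk hσζ2
  induction k with
  | zero => rfl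
  | succ k ih => rw [pow_succ', AlgEquiv.mul_apply, ih, hfix1]

theorem pf_STC : T_LVB → T_KEY → T_STC := by
  intro hLVB hKEY F Ω _ _ _ _ _ _ _ p hp r γ hγ
  have : IsAlgClosure F Ω := ⟨inferInstance, inferInstance⟩
  have : Normal F Ω := IsAlgClosure.normal F Ω
  obtain ⟨C, hC⟩ := hKEY F Ω p hp r γ hγ
  obtain ⟨δ, lam, n0, hδ, hkey⟩ := hC (C + 1)
  refine ⟨C + 1, n0 + 2 * (C + 1) + lam + 2, δ, hδ, ?_⟩
  rintro n m N' K' hn hmn hN' hK' α ⟨β, hβM, hβ, g, ⟨hg0, j, hj, x, hgj⟩, rfl⟩ hh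
  have hγΩ : ∀ i, algebraMap F Ω (γ i) ≠ 0 := fun i => by
    rw [Ne, map_eq_zero]
    exact hγ i
  have hpn : ∀ k : ℕ, p ^ k ≠ 0 := fun k => pow_ne_zero _ hp.ne_zero
  have hN0 : N' ≠ 0 := by
    rintro rfl
    exact hN' (dvd_zero p)
  have hK0 : K' ≠ 0 := by
    rintro rfl
    exact hN0 (Nat.eq_zero_of_zero_dvd hK')
  have hL : Lev C (C + 1) n0 p n (n - (C + 1)) (n - (C + 1)) (n - 1) N' K' :=
    ⟨by omega, by omega, by omega, by omega, by omega, by omega, hN', hK'⟩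
  set n1 := n - (C + 1) with hn1
  have hβMt : β ∈ Lv F Ω γ (p ^ n * N') (p ^ n1 * K') := by
    obtain ⟨-, -, -, -, -, hmono⟩ := hLVB F Ω r γ hγ (p ^ n * N') (p ^ m * K')
      (Nat.pos_of_ne_zero (mul_ne_zero (hpn _) hN0)) (Nat.pos_of_ne_zero (mul_ne_zero (hpn _) hK0))
    refine hmono (p ^ n * N') (p ^ n1 * K') dvd_rfl ?_ ?_
      (Nat.pos_of_ne_zero (mul_ne_zero (hpn _) hN0)) hβM
    · exact Nat.mul_dvd_mul (pow_dvd_pow p (by omega)) dvd_rfl
    · exact Nat.mul_dvd_mul (pow_dvd_pow p (by omega)) hK'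
  obtain ⟨t, htV, ⟨ξ, hξ, htξ⟩, htβ⟩ := hkey n n1 n1 (n - 1) N' K' hL ⟨β, hβMt⟩
    (fun h => hβ (congrArg Subtype.val h)) g hg0
    ⟨j, ∏ i, γ i ^ x i, hj, by rw [hgj, map_prod]; simp only [map_zpow₀]⟩ hh
  set τ : Ω ≃ₐ[F] Ω := t.liftNormal Ω with hτd
  have hcomm : ∀ y : Lv F Ω γ (p ^ n * N') (p ^ n1 * K'), τ (y : Ω) = ((t y : _) : Ω) := fun y =>
    t.liftNormal_commutes Ω y
  have hgen1 : ∀ y : Ω, y ^ (p ^ n * N') = 1 → y ∈ Lv F Ω γ (p ^ n * N') (p ^ n1 * K') :=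
    fun y hy => IntermediateField.subset_adjoin _ _ (Or.inl hy)
  have hgen2 : ∀ y : Ω, (∃ i, y ^ (p ^ n1 * K') = algebraMap F Ω (γ i)) →
      y ∈ Lv F Ω γ (p ^ n * N') (p ^ n1 * K') :=
    fun y hy => IntermediateField.subset_adjoin _ _ (Or.inr hy)
  have hτ : ∀ y : Ω, (y ^ N' = 1 ∨ y ^ (p ^ n1) = 1 ∨
      (∃ i, y ^ (p ^ n1) = algebraMap F Ω (γ i)) ∨ (∃ i, y ^ K' = algebraMap F Ω (γ i))) →
      τ y = y := by
    intro y hy
    have hyM : y ∈ Lv F Ω γ (p ^ n * N') (p ^ n1 * K') := by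
      rcases hy with hy | hy | ⟨i, hy⟩ | ⟨i, hy⟩
      · apply hgen1
        rw [mul_comm, pow_mul, hy, one_pow]
      · apply hgen1
        have : p ^ n = p ^ n1 * p ^ (n - n1) := by
          rw [← pow_add]
          congr 1
          omega
        rw [this, mul_assoc, pow_mul, hy, one_pow]
      · obtain ⟨z, hz⟩ := IsAlgClosed.exists_pow_nat_eq y (Nat.pos_of_ne_zero hK0)
        rw [← hz]
        apply pow_mem
        apply hgen2
        refine ⟨i, ?_⟩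
        rw [mul_comm, pow_mul, hz, hy]
      · obtain ⟨z, hz⟩ := IsAlgClosed.exists_pow_nat_eq y (Nat.pos_of_ne_zero (hpn n1))
        rw [← hz]
        apply pow_mem
        apply hgen2
        refine ⟨i, ?_⟩
        rw [pow_mul, hz, hy]
    have h1 : t ⟨y, hyM⟩ = ⟨y, hyM⟩ := by
      apply htV
      rcases hy with hy | hy | ⟨i, hy⟩ | ⟨i, hy⟩
      · exact Or.inl ⟨N', hN', Subtype.ext hy⟩
      · exact Or.inr (Or.inl (Subtype.ext hy))
      · exact Or.inr (Or.inr (Or.inl ⟨i, Subtype.ext hy⟩))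
      · exact Or.inr (Or.inr (Or.inr ⟨i, Subtype.ext hy⟩))
    have h2 := hcomm ⟨y, hyM⟩
    rw [h1] at h2
    exact h2
  have hne : ((p ^ n : ℕ) : Ω) ≠ 0 := by exact_mod_cast hpn n
  have : NeZero ((p ^ n : ℕ) : Ω) := ⟨hne⟩
  have : NeZero (p ^ n) := ⟨hpn n⟩
  obtain ⟨ζ, hζ⟩ := HasEnoughRootsOfUnity.exists_primitiveRoot Ω (p ^ n)
  have hτζ : τ ζ ≠ ζ := by
    intro h
    apply htξ
    have e0 : ∀ z : Ω, z ^ (p ^ (n - 1)) = 1 → z ^ (p ^ n) = 1 := by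
      intro z hz
      have : p ^ n = p ^ (n - 1) * p ^ 1 := by
        rw [← pow_add]
        congr 1
        omega
      rw [this, pow_mul, hz, one_pow]
    have hξ1 : (ξ : Ω) ^ (p ^ n) = 1 := e0 _
      (congrArg (fun z : Lv F Ω γ (p ^ n * N') (p ^ n1 * K') => (z : Ω)) hξ)
    obtain ⟨k, -, hk⟩ := hζ.eq_pow_of_pow_eq_one hξ1
    apply Subtype.ext
    rw [← hcomm ξ, ← hk, map_pow, h]
  have hβτ : (τ β) ^ (p ^ lam) = β ^ (p ^ lam) := by
    have h1 := congrArg (fun z : Lv F Ω γ (p ^ n * N') (p ^ n1 * K') => (z : Ω)) htβ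
    have h2 := hcomm ⟨β, hβMt⟩
    change τ β = _ at h2
    rw [h2]
    exact h1
  obtain ⟨i, hi⟩ := stc_core F Ω p hp r γ hγ n m n1 (C + 1) lam N' K' (by omega) (by omega)
    (by omega) (by omega) (by omega) (by omega) hN' hK' τ hτ ζ hζ hτζ β hβM hβ hβτ
  have hζ0 : ζ ≠ 0 := hζ.ne_zero (hpn n)
  refine ⟨β / ζ ^ i, hi, div_ne_zero hβ (pow_ne_zero _ hζ0), ζ ^ i * g,
    ⟨mul_ne_zero (pow_ne_zero _ hζ0) hg0, p ^ n * j, Nat.mul_pos (Nat.pos_of_ne_zero (hpn n)) hj,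
      fun i => (p ^ n : ℕ) * x i, ?_⟩, ?_⟩
  · have e1 : (ζ ^ i) ^ (p ^ n) = 1 := by
      rw [← pow_mul, mul_comm, pow_mul, hζ.pow_eq_one, one_pow]
    rw [mul_pow, pow_mul, e1, one_pow, one_mul, mul_comm, pow_mul, hgj, ← Finset.prod_pow]
    apply Finset.prod_congr rfl
    intro l _
    rw [← zpow_natCast, ← zpow_mul, mul_comm]
  · field_simp

end Pool.Agent.H30.RD
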