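import Pool.Agent.H24.RD.Targets

set_option autoImplicit false

namespace Pool.Agent.H30.RD

open NumberField Height Finset Pool.Agent.H24.RD

theorem key_height (hHB : T_HB) (F M Ω : Type) [Field F] [NumberField F] [Field M]
    [Field Ω] [CharZero Ω] [Algebra F M] [Algebra M Ω] [Algebra F Ω] [IsScalarTower F M Ω]
    [IsAlgClosed Ω] [Algebra.IsAlgebraic F Ω] (t : M ≃ₐ[F] M) (β : M) (hβ : β ≠ 0) (g : Ω)
    (hg : g ≠ 0) (j : ℕ) (a : F) (hj : 0 < j) (hga : g ^ j = algebraMap F Ω a) :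
    absLogHeight₁ (algebraMap M Ω (t β / β)) ≤ 2 * absLogHeight₁ (algebraMap M Ω β * g) := by
  have : IsAlgClosure F Ω := ⟨inferInstance, inferInstance⟩
  have : Normal F Ω := IsAlgClosure.normal F Ω
  have : Algebra.IsAlgebraic ℚ Ω := Algebra.IsAlgebraic.trans ℚ F Ω
  obtain ⟨-, hmul, hinv, -, htor, hconj, -⟩ := hHB Ω
  set σ : Ω ≃ₐ[F] Ω := t.liftNormal Ω with hσ
  have hσβ : ∀ x : M, σ (algebraMap M Ω x) = algebraMap M Ω (t x) := fun x =>
    t.liftNormal_commutes Ω x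
  have hβΩ : algebraMap M Ω β ≠ 0 := by
    rw [Ne, map_eq_zero]
    exact hβ
  have hρ : (σ g / g) ^ j = 1 := by
    rw [div_pow, ← map_pow, hga, AlgEquiv.commutes, div_self]
    rw [← hga]
    exact pow_ne_zero _ hg
  have h1 : σ (algebraMap M Ω β * g) * (algebraMap M Ω β * g)⁻¹ =
      (σ g / g) * algebraMap M Ω (t β / β) := by
    rw [map_mul, hσβ, map_div₀]
    field_simp
  have h2 := htor (σ g / g) (algebraMap M Ω (t β / β)) j hj hρ
  rw [← h2, ← h1]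
  refine (hmul _ _).trans ?_
  rw [hinv]
  have h3 := hconj (σ : Ω ≃+* Ω) (algebraMap M Ω β * g)
  have h4 : (σ : Ω ≃+* Ω) (algebraMap M Ω β * g) = σ (algebraMap M Ω β * g) := rfl
  rw [h4] at h3
  rw [h3]
  linarith

open Classical in
theorem key_aux (hHA : T_HA) (hHB : T_HB) (hPF : T_PF) (hPOW : T_POW) (hGEN : T_GEN)
    (hWT : T_WT) (hVC : T_VC) (F M Ω : Type) [Field F] [NumberField F] [Field M] [NumberField M]
    [Field Ω] [CharZero Ω] [Algebra F M] [Algebra M Ω] [Algebra F Ω] [IsScalarTower F M Ω]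
    [FiniteDimensional F M] [IsAlgClosed Ω] [Algebra.IsAlgebraic F Ω]
    (p : ℕ) (hp : p.Prime) (r : ℕ) (γ : Fin r → F) (hγ : ∀ i, γ i ≠ 0) (CL : ℕ)
    (hCL : ∀ (n1 n2 K' : ℕ), ¬ p ∣ K' → n1 ≤ n2 → ∀ ζ : M, IsPrimitiveRoot ζ (p ^ n2) →
      (∀ i, ∃ θ : M, θ ^ (p ^ n1) = algebraMap F M (γ i)) →
      (∀ i, ∃ θ : M, θ ^ K' = algebraMap F M (γ i)) →
      ∀ v : FinitePlace M, v.1 (p : M) < 1 → ∀ x0 : M, IsGen F M v.1 x0 →
        (n2 : ℝ) - n1 - CL ≤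
          ∑ t ∈ univ.filter (fun t : M ≃ₐ[F] M => t ∈ VV F M γ p n1 K' ∧ t ζ ≠ ζ),
            wv v.1 p (t x0 - x0))
    (R T n m n1 n2 N' K' : ℕ) (hT : T = p ^ ((r + 1) * R))
    (hL : Lev (CL + 1) R (2 * T + R + 1) p n m n1 n2 N' K')
    (hζ : ∃ ζ : M, IsPrimitiveRoot ζ (p ^ n * N'))
    (hθ : ∀ i, ∃ θ : M, θ ^ (p ^ m * K') = algebraMap F M (γ i))
    (hadj : IntermediateField.adjoin F
      {z : M | z ^ (p ^ n * N') = 1 ∨ ∃ i, z ^ (p ^ m * K') = algebraMap F M (γ i)} = ⊤)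
    (β : M) (hβ : β ≠ 0) (g : Ω) (hg : g ≠ 0)
    (hga : ∃ (j : ℕ) (a : F), 0 < j ∧ g ^ j = algebraMap F Ω a)
    (hh : absLogHeight₁ (algebraMap M Ω β * g) < 1 / (2 * T * (p : ℝ) ^ (3 * T + 2))) :
    ∃ t : M ≃ₐ[F] M, t ∈ VV F M γ p n1 K' ∧ (∃ ξ : M, ξ ^ (p ^ n2) = 1 ∧ t ξ ≠ ξ) ∧
      (t β) ^ (p ^ (3 * T + 2)) = β ^ (p ^ (3 * T + 2)) := by
  obtain ⟨h0, h1, h2, h3, h4, h5, h6, h7⟩ := hL
  have hT1 : 1 ≤ T := by
    rw [hT]
    exact Nat.one_le_pow _ _ hp.pos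
  obtain ⟨hcard, -⟩ := hVC F M p hp r γ hγ n m n1 N' K' h3 h4 (by omega) h6 h7 hζ hθ hadj
  have hcardT : Nat.card (VV F M γ p n1 K') ≤ T := by
    refine hcard.trans ?_
    rw [hT]
    exact Nat.pow_le_pow_right hp.pos (Nat.mul_le_mul_left _ (by omega))
  have hK'p : ¬ p ∣ K' := fun h => h6 (h.trans h7)
  have hN0 : N' ≠ 0 := by
    rintro rfl
    exact h6 (dvd_zero p)
  obtain ⟨ζ0, hζ0⟩ := hζ
  have hζ1 : IsPrimitiveRoot (ζ0 ^ (p ^ (n - n2) * N')) (p ^ n2) := by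
    refine hζ0.pow (Nat.pos_of_ne_zero (mul_ne_zero (pow_ne_zero _ hp.ne_zero) hN0)) ?_
    have : p ^ n = p ^ (n - n2) * p ^ n2 := by
      rw [← pow_add]
      congr 1
      omega
    rw [this]
    ring
  set ζ : M := ζ0 ^ (p ^ (n - n2) * N') with hζd
  have hz1 : IsPrimitiveRoot (ζ ^ (p ^ (n2 - n1))) (p ^ n1) := by
    refine hζ1.pow (pow_pos hp.pos _) ?_
    rw [← pow_add]
    congr 1
    omega
  have hθ1 : ∀ i, ∃ θ : M, θ ^ (p ^ n1) = algebraMap F M (γ i) := fun i => by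
    obtain ⟨θ, hθi⟩ := hθ i
    refine ⟨θ ^ (p ^ (m - n1) * K'), ?_⟩
    rw [← pow_mul, ← hθi]
    congr 1
    have : p ^ m = p ^ (m - n1) * p ^ n1 := by
      rw [← pow_add]
      congr 1
      omega
    rw [this]
    ring
  have hθ2 : ∀ i, ∃ θ : M, θ ^ K' = algebraMap F M (γ i) := fun i => by
    obtain ⟨θ, hθi⟩ := hθ i
    refine ⟨θ ^ (p ^ m), ?_⟩
    rw [← pow_mul, ← hθi]
  -- the index set
  set S : Finset (M ≃ₐ[F] M) :=
    univ.filter (fun t : M ≃ₐ[F] M => t ∈ VV F M γ p n1 K' ∧ t ζ ≠ ζ) with hS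
  have hScard : S.card ≤ T := by
    refine le_trans ?_ hcardT
    rw [Nat.card_eq_fintype_card, Fintype.card_subtype]
    apply Finset.card_le_card
    intro t ht
    rw [hS, Finset.mem_filter] at ht
    rw [Finset.mem_filter]
    exact ⟨Finset.mem_univ _, ht.2.1⟩
  have hp1 : (1 : ℝ) < p := by exact_mod_cast hp.one_lt
  have hp2 : (2 : ℝ) ≤ p := by exact_mod_cast hp.two_le
  have hTR : (1 : ℝ) ≤ T := by exact_mod_cast hT1
  by_contra hcon
  push Not at hcon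
  have hUne : ∀ t : S, ((t.1 β / β) ^ (p ^ (3 * T + 2)) : M) ≠ 1 := by
    intro t ht
    have ht' : t.1 ∈ VV F M γ p n1 K' ∧ t.1 ζ ≠ ζ := (Finset.mem_filter.1 t.2).2
    refine hcon t.1 ht'.1 ⟨ζ, hζ1.pow_eq_one, ht'.2⟩ ?_
    rw [div_pow, div_eq_one_iff_eq (pow_ne_zero _ hβ)] at ht
    exact ht
  have hloc : ∀ v : FinitePlace M, v.1 (p : M) < 1 →
      ∃ t : S, v.1 ((t.1 β / β) ^ (p ^ (3 * T + 2)) - 1) ≤ v.1 (p : M) ^ (T + 2) *
        (max (v.1 ((t.1 β / β) ^ (p ^ (3 * T + 2)))) 1 * max (v.1 (1 : M)) 1) := by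
    intro v hv
    obtain ⟨x0, hx0⟩ := hGEN F M p hp v hv
    have hsum := hCL n1 n2 K' hK'p (by omega) ζ hζ1 hθ1 hθ2 v hv x0 hx0
    have hsum1 : (1 : ℝ) ≤ ∑ t ∈ S, wv v.1 p (t x0 - x0) := by
      refine le_trans (le_of_eq ?_) hsum
      rw [h1]
      push_cast
      ring
    have hex : ∃ t ∈ S, 1 / (T : ℝ) ≤ wv v.1 p (t x0 - x0) := by
      by_contra hno
      push Not at hno
      have hb : ∑ t ∈ S, wv v.1 p (t x0 - x0) < 1 := by
        rcases S.eq_empty_or_nonempty with hSe | hSn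
        · rw [hSe, Finset.sum_empty]
          exact one_pos
        · calc ∑ t ∈ S, wv v.1 p (t x0 - x0) < ∑ t ∈ S, 1 / (T : ℝ) :=
                Finset.sum_lt_sum_of_nonempty hSn hno
            _ = S.card * (1 / (T : ℝ)) := by rw [Finset.sum_const, nsmul_eq_mul]
            _ ≤ T * (1 / (T : ℝ)) := by
                apply mul_le_mul_of_nonneg_right _ (by positivity)
                exact_mod_cast hScard
            _ = 1 := by field_simp
      linarith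
    obtain ⟨t, ht, hct⟩ := hex
    refine ⟨⟨t, ht⟩, ?_⟩
    rw [hS, Finset.mem_filter] at ht
    have ht1 : t ≠ 1 := by
      rintro rfl
      exact ht.2.2 rfl
    have hfix : t (ζ ^ (p ^ (n2 - n1))) = ζ ^ (p ^ (n2 - n1)) :=
      ht.2.1 _ (Or.inr (Or.inl hz1.pow_eq_one))
    have hbig : 2 * T ≤ p ^ (n1 - 1) * (p - 1) := by
      have e1 : 2 * T + R ≤ n1 - 1 := by omega
      have e2 : n1 - 1 < p ^ (n1 - 1) := Nat.lt_pow_self hp.one_lt
      have e3 : 1 ≤ p - 1 := by have := hp.two_le; omega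
      calc 2 * T ≤ n1 - 1 := by omega
        _ ≤ p ^ (n1 - 1) * 1 := by omega
        _ ≤ p ^ (n1 - 1) * (p - 1) := Nat.mul_le_mul_left _ e3
    have hw := hWT F M p hp v hv x0 hx0 t T hT1 ht1 hct n1 _ hz1 hfix (by omega) hbig β hβ
    have hna : IsNonarchimedean v.1 := fun x y => FinitePlace.add_le v x y
    have hvp0 : 0 ≤ v.1 (p : M) := v.1.nonneg _
    have hpow := hPOW M v.1 hna p hp hv (2 * T) (by omega) (t β / β) 1 (by
      refine hw.trans ?_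
      have hr : 0 ≤ v.1 (p : M) ^ (1 / ((2 * T : ℕ) : ℝ)) := Real.rpow_nonneg hvp0 _
      have hm1 : (1 : ℝ) ≤ max (v.1 (t β / β)) 1 := le_max_right _ _
      have hm2 : (1 : ℝ) ≤ max (v.1 (1 : M)) 1 := le_max_right _ _
      calc v.1 (p : M) ^ (1 / ((2 * T : ℕ) : ℝ)) = v.1 (p : M) ^ (1 / ((2 * T : ℕ) : ℝ)) * (1 * 1) := by
            ring
        _ ≤ _ := by
            apply mul_le_mul_of_nonneg_left _ hr
            exact mul_le_mul hm1 hm2 zero_le_one (by positivity)) (T + 2)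
    have hexp : 2 * T + (T + 2) = 3 * T + 2 := by ring
    rw [hexp, one_pow] at hpow
    exact hpow
  have hpf := hPF M p hp S (fun t => (t.1 β / β) ^ (p ^ (3 * T + 2))) (fun _ => 1) hUne (T + 2)
    hloc
  have : Algebra.IsAlgebraic ℚ Ω := Algebra.IsAlgebraic.trans ℚ F Ω
  obtain ⟨hnn, -, -, hpw, -, -, -⟩ := hHB Ω
  have hd : 0 < (Module.finrank ℚ M : ℝ) := by exact_mod_cast Module.finrank_pos
  have hlh : ∀ x : M, logHeight₁ x = (Module.finrank ℚ M : ℝ) * absLogHeight₁ (algebraMap M Ω x) := by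
    intro x
    rw [hHA M Ω x]
    field_simp
  obtain ⟨j, a, hj, hga⟩ := hga
  have hterm : ∀ t : S, logHeight₁ ((t.1 β / β) ^ (p ^ (3 * T + 2)) : M) + logHeight₁ (1 : M) ≤
      (Module.finrank ℚ M : ℝ) * ((p : ℝ) ^ (3 * T + 2) *
        (2 * absLogHeight₁ (algebraMap M Ω β * g))) := by
    intro t
    have e1 : logHeight₁ (1 : M) = 0 := by
      rw [hlh, map_one]
      have := hpw 1 0
      rw [pow_zero, Nat.cast_zero, zero_mul] at this
      rw [this, mul_zero]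
    rw [e1, add_zero, hlh, map_pow, hpw]
    apply mul_le_mul_of_nonneg_left _ hd.le
    rw [Nat.cast_pow]
    apply mul_le_mul_of_nonneg_left _ (by positivity)
    exact key_height hHB F M Ω t.1 β hβ g hg j a hj hga
  have hsum2 : ∑ t : S, (logHeight₁ ((t.1 β / β) ^ (p ^ (3 * T + 2)) : M) + logHeight₁ (1 : M)) ≤
      (S.card : ℝ) * ((Module.finrank ℚ M : ℝ) * ((p : ℝ) ^ (3 * T + 2) *
        (2 * absLogHeight₁ (algebraMap M Ω β * g)))) := by
    calc _ ≤ ∑ t : S, ((Module.finrank ℚ M : ℝ) * ((p : ℝ) ^ (3 * T + 2) *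
        (2 * absLogHeight₁ (algebraMap M Ω β * g)))) := Finset.sum_le_sum fun t _ => hterm t
      _ = _ := by
        rw [Finset.sum_const, nsmul_eq_mul, Finset.card_univ, Fintype.card_coe]
  have hcS : (Fintype.card S : ℝ) ≤ T := by
    rw [Fintype.card_coe]
    exact_mod_cast hScard
  have hh0 := hnn (algebraMap M Ω β * g)
  have hlog2 : (0.6931471803 : ℝ) < Real.log 2 := Real.log_two_gt_d9
  have hlogp : Real.log 2 ≤ Real.log p := Real.log_le_log (by norm_num) hp2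
  have hfin := hpf.trans hsum2
  have hP0 : (0 : ℝ) < (p : ℝ) ^ (3 * T + 2) := by positivity
  have hA : (S.card : ℝ) * ((Module.finrank ℚ M : ℝ) * ((p : ℝ) ^ (3 * T + 2) *
      (2 * absLogHeight₁ (algebraMap M Ω β * g)))) ≤ (Module.finrank ℚ M : ℝ) * 1 := by
    have e1 : (S.card : ℝ) ≤ T := by exact_mod_cast hScard
    have e2 : (p : ℝ) ^ (3 * T + 2) * (2 * absLogHeight₁ (algebraMap M Ω β * g)) ≤ 1 / T := by
      have e3 : absLogHeight₁ (algebraMap M Ω β * g) ≤ 1 / (2 * T * (p : ℝ) ^ (3 * T + 2)) := hh.le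
      calc (p : ℝ) ^ (3 * T + 2) * (2 * absLogHeight₁ (algebraMap M Ω β * g))
          ≤ (p : ℝ) ^ (3 * T + 2) * (2 * (1 / (2 * T * (p : ℝ) ^ (3 * T + 2)))) := by
            gcongr
        _ = 1 / T := by
            field_simp
    calc (S.card : ℝ) * ((Module.finrank ℚ M : ℝ) * ((p : ℝ) ^ (3 * T + 2) *
          (2 * absLogHeight₁ (algebraMap M Ω β * g))))
        = (Module.finrank ℚ M : ℝ) * ((S.card : ℝ) * ((p : ℝ) ^ (3 * T + 2) *
          (2 * absLogHeight₁ (algebraMap M Ω β * g)))) := by ring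
      _ ≤ (Module.finrank ℚ M : ℝ) * (T * (1 / T)) := by
          apply mul_le_mul_of_nonneg_left _ hd.le
          apply mul_le_mul e1 e2 (by positivity) (by positivity)
      _ = (Module.finrank ℚ M : ℝ) * 1 := by
          congr 1
          field_simp
  have hfin2 := le_of_mul_le_mul_left (hfin.trans hA) hd
  push_cast at hfin2
  have e4 : ((T : ℝ) + 2) * Real.log 2 ≤ ((T : ℝ) + 2) * Real.log p :=
    mul_le_mul_of_nonneg_left hlogp (by positivity)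
  have e5 : (Fintype.card S : ℝ) * Real.log 2 ≤ T * Real.log 2 :=
    mul_le_mul_of_nonneg_right hcS (by linarith)
  linarith

open Classical in
theorem pf_KEY : T_HA → T_HB → T_PF → T_POW → T_GEN → T_LI → T_WT → T_VC → T_LVB → T_KEY := by
  intro hHA hHB hPF hPOW hGEN hLI hWT hVC hLVB F Ω _ _ _ _ _ _ _ p hp r γ hγ
  obtain ⟨CL, hCL⟩ := hLI F p hp r γ hγ
  refine ⟨CL + 1, fun R => ?_⟩
  have hT1 : 1 ≤ p ^ ((r + 1) * R) := Nat.one_le_pow _ _ hp.pos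
  refine ⟨1 / (2 * (p ^ ((r + 1) * R) : ℕ) * (p : ℝ) ^ (3 * p ^ ((r + 1) * R) + 2)),
    3 * p ^ ((r + 1) * R) + 2, 2 * p ^ ((r + 1) * R) + R + 1, ?_, ?_⟩
  · have : (0 : ℝ) < p := by exact_mod_cast hp.pos
    have h2 : (0 : ℝ) < ((p ^ ((r + 1) * R) : ℕ) : ℝ) := by exact_mod_cast hT1
    positivity
  intro n m n1 n2 N' K' hL β hβ g hg hga hh
  have h6 := hL.h6
  have h7 := hL.h7
  have hN0 : N' ≠ 0 := by
    rintro rfl
    exact h6 (dvd_zero p)
  have hK0 : K' ≠ 0 := by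
    rintro rfl
    exact hN0 (Nat.eq_zero_of_zero_dvd h7)
  obtain ⟨hfd, hgal, hζ, hθ, hadj, -⟩ := hLVB F Ω r γ hγ (p ^ n * N') (p ^ m * K')
    (Nat.pos_of_ne_zero (mul_ne_zero (pow_ne_zero _ hp.ne_zero) hN0))
    (Nat.pos_of_ne_zero (mul_ne_zero (pow_ne_zero _ hp.ne_zero) hK0))
  have := hfd
  have := hgal
  have : FiniteDimensional ℚ (Lv F Ω γ (p ^ n * N') (p ^ m * K')) :=
    FiniteDimensional.trans ℚ F _
  have : NumberField (Lv F Ω γ (p ^ n * N') (p ^ m * K')) := {}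
  exact key_aux hHA hHB hPF hPOW hGEN hWT hVC F (Lv F Ω γ (p ^ n * N') (p ^ m * K')) Ω p hp r γ hγ
    CL (hCL (Lv F Ω γ (p ^ n * N') (p ^ m * K'))) R _ n m n1 n2 N' K' rfl hL hζ hθ hadj β hβ g hg
    hga hh

end Pool.Agent.H30.RD
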