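import Pool.Agent.H24.RD.Targets

set_option autoImplicit false

namespace Pool.Agent.H30.RD

open NumberField Height Finset Pool.Agent.H24.RD

theorem li_roots {F M : Type} [Field F] [Field M] [Algebra F M] {r : ℕ} (γ : Fin r → F)
    (N : ℕ) (θ : Fin r → M) (hθ : ∀ i, θ i ^ N = algebraMap F M (γ i)) (e a : Fin r → ℤ) :
    (∏ i, θ i ^ e i) ^ N = algebraMap F M (∏ i, γ i ^ e i) ∧
    ∀ i, (θ i * (∏ j, θ j ^ e j) ^ (- a i)) ^ N =
      algebraMap F M (γ i * (∏ j, γ j ^ e j) ^ (- a i)) := by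
  have h0 : (∏ i, θ i ^ e i) ^ N = algebraMap F M (∏ i, γ i ^ e i) := by
    rw [map_prod, ← Finset.prod_pow]
    refine Finset.prod_congr rfl fun i _ => ?_
    rw [map_zpow₀, ← hθ i, ← zpow_natCast, ← zpow_natCast, ← zpow_mul, ← zpow_mul, mul_comm]
  refine ⟨h0, fun i => ?_⟩
  rw [mul_pow, hθ i, map_mul, map_zpow₀, ← h0]
  congr 1
  rw [← zpow_natCast, ← zpow_natCast, ← zpow_mul, ← zpow_mul, mul_comm]

theorem li_wv_pow {M : Type} [Field M] (v : AbsoluteValue M ℝ) (p : ℕ) (x : M) (N : ℕ) :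
    wv v p (x ^ N) = N * wv v p x := by
  unfold wv
  rw [map_pow, Real.log_pow, mul_div_assoc]

theorem li_wv_nonneg {M : Type} [Field M] (v : AbsoluteValue M ℝ) (p : ℕ) (x : M)
    (hp : v (p : M) < 1) (hx : v x ≤ 1) : 0 ≤ wv v p x := by
  unfold wv
  apply div_nonneg_of_nonpos
  · exact Real.log_nonpos (v.nonneg _) hx
  · exact Real.log_nonpos (v.nonneg _) hp.le

theorem li_wv_one {M : Type} [Field M] (v : AbsoluteValue M ℝ) (p : ℕ) (x : M)
    (hx : v x = 1) : wv v p x = 0 := by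
  unfold wv
  rw [hx, Real.log_one, zero_div]

open Classical in
theorem pf_LI : T_VB → T_MS → T_KM → T_TM → T_ADP → T_LI := by
  intro hVB hMS hKM hTM hADP F _ _ p hp r γ hγ
  obtain ⟨D, hD⟩ := hMS F
  obtain ⟨CA, hCA⟩ := hADP F p hp r γ hγ
  refine ⟨D + 2 * CA + 4, ?_⟩
  intro M _ _ _ _ _ n1 n2 K' hK' hn ζ hζ hθ hϑ v hv x0 hx0
  obtain ⟨-, -, hint, -, -, -, -⟩ := hVB M p hp v hv
  obtain ⟨e, a, he1, he2, he3⟩ := hCA M v hv
  choose θ hθ using hθ
  choose ϑ hϑ using hϑ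
  obtain ⟨hη0, hη⟩ := li_roots γ (p ^ n1) θ hθ e a
  obtain ⟨hy0, hy⟩ := li_roots γ K' ϑ hϑ e a
  have hpn : p ^ n1 ≠ 0 := pow_ne_zero _ hp.ne_zero
  have : NeZero (p ^ n1) := ⟨hpn⟩
  have hK0 : K' ≠ 0 := by
    rintro rfl
    exact hK' (dvd_zero p)
  set c : (M ≃ₐ[F] M) → ℝ := fun t => wv v.1 p (t x0 - x0) with hc
  have hcn : ∀ t, 0 ≤ c t := fun t => by
    refine li_wv_nonneg _ _ _ hv (hint _ ?_)
    exact (hx0.int.map t).sub hx0.int
  have hpm1 : IsPrimitiveRoot (ζ ^ (p ^ (n2 - n1))) (p ^ n1) := by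
    refine hζ.pow (pow_pos hp.pos _) ?_
    rw [← pow_add]
    congr 1
    omega
  have hγM : ∀ i, algebraMap F M (γ i) ≠ 0 := fun i => by
    rw [Ne, map_eq_zero]
    exact hγ i
  have hθ0 : ∀ i, θ i ≠ 0 := fun i h => by
    have := hθ i
    rw [h, zero_pow hpn] at this
    exact hγM i this.symm
  have hϑ0 : ∀ i, ϑ i ≠ 0 := fun i h => by
    have := hϑ i
    rw [h, zero_pow hK0] at this
    exact hγM i this.symm
  set η0 : M := ∏ i, θ i ^ e i with hη0d
  set y0 : M := ∏ i, ϑ i ^ e i with hy0d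
  set g0 : F := ∏ i, γ i ^ e i with hg0d
  have hη00 : η0 ≠ 0 := Finset.prod_ne_zero_iff.2 fun i _ => zpow_ne_zero _ (hθ0 i)
  have hy00 : y0 ≠ 0 := Finset.prod_ne_zero_iff.2 fun i _ => zpow_ne_zero _ (hϑ0 i)
  -- zero mass of elements moving a unit root of `F` of order prime to `p`
  have hzero : ∀ (K : ℕ) (y : M) (g : F), ¬ p ∣ K → y ≠ 0 → y ^ K = algebraMap F M g →
      v.1 y = 1 → ∀ t : M ≃ₐ[F] M, t y ≠ y → c t = 0 := by
    intro K y g hK hy0' hyg hvy t ht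
    have h1 := hTM F M p hp v hv x0 hx0 K hK y g hy0' hyg hvy.le
    rw [li_wv_one _ _ _ hvy, mul_zero] at h1
    have h2 : c t ≤ ∑ t ∈ univ.filter (fun t : M ≃ₐ[F] M => t y ≠ y), wv v.1 p (t x0 - x0) :=
      Finset.single_le_sum (f := c) (fun s _ => hcn s) (by simpa using ht)
    exact le_antisymm (h2.trans h1) (hcn t)
  have hroot : ∀ (K : ℕ) (y : M), ¬ p ∣ K → y ^ K = 1 → ∀ t : M ≃ₐ[F] M, t y ≠ y → c t = 0 := by
    intro K y hK hyK t ht
    have hK1 : K ≠ 0 := by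
      rintro rfl
      exact hK (dvd_zero p)
    have hvy : v.1 y = 1 := by
      have : v.1 y ^ K = 1 := by rw [← map_pow, hyK, map_one]
      exact (pow_eq_one_iff_of_nonneg (v.1.nonneg _) hK1).1 this
    have hyne : y ≠ 0 := by
      rintro rfl
      rw [zero_pow hK1] at hyK
      exact zero_ne_one hyK
    exact hzero K y 1 hK hyne (by rw [hyK, map_one]) hvy t ht
  -- the two masses
  have hA := hKM F M p hp v hv x0 hx0 n1 _ hpm1 r (fun i => θ i * η0 ^ (- a i))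
    (fun i => ⟨_, hη i⟩) (fun i => by
      have h1 : v.1 (θ i * η0 ^ (- a i)) ^ (p ^ n1) = 1 := by
        rw [← map_pow, hη i]
        exact he3 i
      exact (pow_eq_one_iff_of_nonneg (v.1.nonneg _) hpn).1 h1) η0 hη00 ⟨_, hη0⟩ (by
      have h1 : v.1 η0 ^ (p ^ n1) ≤ 1 := by
        rw [← map_pow, hη0]
        exact he1
      exact (pow_le_one_iff_of_nonneg (v.1.nonneg _) hpn).1 h1)
  have hA' : (p : ℝ) ^ n1 * wv v.1 p η0 ≤ CA := by
    have := li_wv_pow v.1 p η0 (p ^ n1)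
    rw [hη0] at this
    push_cast at this
    rw [← this]
    exact he2
  have hB := hTM F M p hp v hv x0 hx0 K' hK' y0 g0 hy00 hy0 (by
      have h1 : v.1 y0 ^ K' ≤ 1 := by
        rw [← map_pow, hy0]
        exact he1
      exact (pow_le_one_iff_of_nonneg (v.1.nonneg _) hK0).1 h1)
  have hB' : (K' : ℝ) * wv v.1 p y0 ≤ CA := by
    have := li_wv_pow v.1 p y0 K'
    rw [hy0] at this
    rw [← this]
    exact he2
  have hm := hD M p hp v hv x0 hx0 n2 ζ hζ
  -- the dichotomy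
  have hdich : ∀ t : M ≃ₐ[F] M, t ∉ VV F M γ p n1 K' → c t = 0 ∨ t y0 ≠ y0 ∨
      (t (ζ ^ (p ^ (n2 - n1))) ≠ ζ ^ (p ^ (n2 - n1)) ∨ t η0 ≠ η0 ∨
        ∃ i, t (θ i * η0 ^ (- a i)) ≠ θ i * η0 ^ (- a i)) := by
    intro t ht
    have ht' : ∃ y : M, ((∃ a : ℕ, ¬ p ∣ a ∧ y ^ a = 1) ∨ y ^ (p ^ n1) = 1 ∨
      (∃ i, y ^ (p ^ n1) = algebraMap F M (γ i)) ∨ (∃ i, y ^ K' = algebraMap F M (γ i))) ∧
        t y ≠ y := by
      by_contra hcon
      push Not at hcon
      exact ht fun y hy => hcon y hy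
    obtain ⟨y, hyc, hty⟩ := ht'
    rcases hyc with ⟨K, hK, hyK⟩ | hyb | ⟨i, hyi⟩ | ⟨i, hyi⟩
    · exact Or.inl (hroot K y hK hyK t hty)
    · by_cases h1 : t (ζ ^ (p ^ (n2 - n1))) = ζ ^ (p ^ (n2 - n1))
      · exfalso
        obtain ⟨k, -, hk⟩ := hpm1.eq_pow_of_pow_eq_one hyb
        apply hty
        rw [← hk, map_pow, h1]
      · exact Or.inr (Or.inr (Or.inl h1))
    · by_cases h1 : t (ζ ^ (p ^ (n2 - n1))) = ζ ^ (p ^ (n2 - n1))
      · by_cases h2 : t η0 = η0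
        · right; right; right; right
          refine ⟨i, fun h3 => hty ?_⟩
          have h4 : t (θ i) = θ i := by
            have h5 : θ i = (θ i * η0 ^ (- a i)) * η0 ^ (a i) := by
              rw [mul_assoc, ← zpow_add₀ hη00]
              simp
            rw [h5, map_mul, h3, map_zpow₀, h2]
          have h6 : (y / θ i) ^ (p ^ n1) = 1 := by
            rw [div_pow, hyi, hθ i, div_self (hγM i)]
          obtain ⟨k, -, hk⟩ := hpm1.eq_pow_of_pow_eq_one h6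
          have h7 : y = (ζ ^ (p ^ (n2 - n1))) ^ k * θ i := by
            rw [hk, div_mul_cancel₀ _ (hθ0 i)]
          rw [h7, map_mul, map_pow, h1, h4]
        · exact Or.inr (Or.inr (Or.inr (Or.inl h2)))
      · exact Or.inr (Or.inr (Or.inl h1))
    · by_cases h1 : t (y / ϑ i) = y / ϑ i
      · by_cases h2 : t y0 = y0
        · left
          refine hzero K' (ϑ i * y0 ^ (- a i)) _ hK' (mul_ne_zero (hϑ0 i) (zpow_ne_zero _ hy00))
            (hy i) ?_ t ?_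
          · have h3 : v.1 (ϑ i * y0 ^ (- a i)) ^ K' = 1 := by
              rw [← map_pow, hy i]
              exact he3 i
            exact (pow_eq_one_iff_of_nonneg (v.1.nonneg _) hK0).1 h3
          · intro h3
            apply hty
            have h4 : t (ϑ i) = ϑ i := by
              have h5 : ϑ i = (ϑ i * y0 ^ (- a i)) * y0 ^ (a i) := by
                rw [mul_assoc, ← zpow_add₀ hy00]
                simp
              rw [h5, map_mul, h3, map_zpow₀, h2]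
            have h7 : y = (y / ϑ i) * ϑ i := by
              rw [div_mul_cancel₀ _ (hϑ0 i)]
            rw [h7, map_mul, h1, h4]
        · exact Or.inr (Or.inl h2)
      · left
        refine hroot K' (y / ϑ i) hK' ?_ t h1
        rw [div_pow, hyi, hϑ i, div_self (hγM i)]
  have hsum : ∑ t ∈ univ.filter (fun t : M ≃ₐ[F] M => t ζ ≠ ζ), wv v.1 p (t x0 - x0) ≤
      ∑ t ∈ univ.filter (fun t : M ≃ₐ[F] M => t ∈ VV F M γ p n1 K' ∧ t ζ ≠ ζ),
        wv v.1 p (t x0 - x0) +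
      (∑ t ∈ univ.filter
        (fun t : M ≃ₐ[F] M => t (ζ ^ (p ^ (n2 - n1))) ≠ ζ ^ (p ^ (n2 - n1)) ∨ t η0 ≠ η0 ∨
          ∃ i, t (θ i * η0 ^ (- a i)) ≠ θ i * η0 ^ (- a i)), wv v.1 p (t x0 - x0) +
      ∑ t ∈ univ.filter (fun t : M ≃ₐ[F] M => t y0 ≠ y0), wv v.1 p (t x0 - x0)) := by
    rw [Finset.sum_filter, Finset.sum_filter, Finset.sum_filter, Finset.sum_filter,
      ← Finset.sum_add_distrib, ← Finset.sum_add_distrib]
    refine Finset.sum_le_sum fun t _ => ?_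
    have hct : 0 ≤ wv v.1 p (t x0 - x0) := hcn t
    by_cases h1 : t ζ ≠ ζ
    · by_cases h2 : t ∈ VV F M γ p n1 K'
      · rw [if_pos h1, if_pos ⟨h2, h1⟩]
        have : (0 : ℝ) ≤ (if (t (ζ ^ (p ^ (n2 - n1))) ≠ ζ ^ (p ^ (n2 - n1)) ∨ t η0 ≠ η0 ∨
          ∃ i, t (θ i * η0 ^ (- a i)) ≠ θ i * η0 ^ (- a i)) then wv v.1 p (t x0 - x0) else 0) := by
          split_ifs <;> simp [hct]
        have h4 : (0 : ℝ) ≤ (if t y0 ≠ y0 then wv v.1 p (t x0 - x0) else 0) := by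
          split_ifs <;> simp [hct]
        linarith
      · rw [if_pos h1, if_neg (fun h => h2 h.1)]
        rcases hdich t h2 with h3 | h3 | h3
        · have h3' : wv v.1 p (t x0 - x0) = 0 := h3
          rw [h3']
          simp
        · rw [if_pos h3]
          have : (0 : ℝ) ≤ (if (t (ζ ^ (p ^ (n2 - n1))) ≠ ζ ^ (p ^ (n2 - n1)) ∨ t η0 ≠ η0 ∨
            ∃ i, t (θ i * η0 ^ (- a i)) ≠ θ i * η0 ^ (- a i)) then
              wv v.1 p (t x0 - x0) else 0) := by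
            split_ifs <;> simp [hct]
          linarith
        · rw [if_pos h3]
          have h4 : (0 : ℝ) ≤ (if t y0 ≠ y0 then wv v.1 p (t x0 - x0) else 0) := by
            split_ifs <;> simp [hct]
          linarith
    · rw [if_neg h1, if_neg (fun h => h1 h.2)]
      have : (0 : ℝ) ≤ (if (t (ζ ^ (p ^ (n2 - n1))) ≠ ζ ^ (p ^ (n2 - n1)) ∨ t η0 ≠ η0 ∨
        ∃ i, t (θ i * η0 ^ (- a i)) ≠ θ i * η0 ^ (- a i)) then wv v.1 p (t x0 - x0) else 0) := by
        split_ifs <;> simp [hct]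
      have h4 : (0 : ℝ) ≤ (if t y0 ≠ y0 then wv v.1 p (t x0 - x0) else 0) := by
        split_ifs <;> simp [hct]
      linarith
  push_cast
  linarith

end Pool.Agent.H30.RD
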