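import Pool.Agent.H24.RD.Targets

set_option autoImplicit false

namespace Pool.Agent.H30.RD

open NumberField Height Finset Pool.Agent.H24.RD

/-- The elements of `V` fix the roots of unity whose `p`-part is small. -/
theorem fix_root (F M : Type) [Field F] [Field M] [Algebra F M] (p : ℕ) (hp : p.Prime) (r : ℕ)
    (γ : Fin r → F) (n1 K' : ℕ) (t : M ≃ₐ[F] M) (ht : t ∈ VV F M γ p n1 K') (e D' : ℕ)
    (he : e ≤ n1) (hD' : ¬ p ∣ D') (y : M) (hy : y ^ (p ^ e * D') = 1) : t y = y := by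
  have hpn : ∀ k : ℕ, p ^ k ≠ 0 := fun k => pow_ne_zero _ hp.ne_zero
  have hD0 : D' ≠ 0 := by
    rintro rfl
    exact hD' (dvd_zero p)
  have hy0 : y ≠ 0 := by
    rintro rfl
    rw [zero_pow (mul_ne_zero (hpn e) hD0)] at hy
    exact zero_ne_one hy
  have hcop : Nat.Coprime (p ^ e) D' :=
    Nat.Coprime.pow_left _ ((Nat.Prime.coprime_iff_not_dvd hp).2 hD')
  obtain ⟨a, b, hab⟩ := (Nat.isCoprime_iff_coprime.2 hcop)
  have h1 : t (y ^ (p ^ e)) = y ^ (p ^ e) := ht _ (Or.inl ⟨D', hD', by rw [← pow_mul, hy]⟩)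
  have h2 : t (y ^ D') = y ^ D' := by
    refine ht _ (Or.inr (Or.inl ?_))
    have : p ^ n1 = p ^ e * p ^ (n1 - e) := by
      rw [← pow_add]
      congr 1
      omega
    rw [this, pow_mul, ← pow_mul y, mul_comm D', hy, one_pow]
  have h5 : y = (y ^ (p ^ e)) ^ a * (y ^ D') ^ b := by
    rw [← zpow_natCast y (p ^ e), ← zpow_natCast y D', ← zpow_mul, ← zpow_mul, ← zpow_add₀ hy0,
      mul_comm _ a, mul_comm _ b, hab, zpow_one]
  rw [h5, map_mul, map_zpow₀, map_zpow₀, h1, h2]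

/-- Bezout for elements fixing `b`. -/
theorem stab_gcd {M G : Type} [Group G] [MulAction G M] (b : M) (h : G) (v w k : ℕ)
    (hv : h ^ v • b = b) (hw : h ^ w • b = b) (hk : Nat.gcd v w ∣ k) : h ^ k • b = b := by
  have h1 : h ^ v ∈ MulAction.stabilizer G b := hv
  have h2 : h ^ w ∈ MulAction.stabilizer G b := hw
  obtain ⟨c, hc⟩ := hk
  have h3 : h ^ k ∈ MulAction.stabilizer G b := by
    have e : h ^ k = (((h ^ v) ^ (Nat.gcdA v w)) * ((h ^ w) ^ (Nat.gcdB v w))) ^ c := by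
      rw [← zpow_natCast h v, ← zpow_natCast h w, ← zpow_mul, ← zpow_mul, ← zpow_add,
        ← Nat.gcd_eq_gcd_ab, zpow_natCast, ← pow_mul, ← hc]
    rw [e]
    exact pow_mem (mul_mem (zpow_mem h1 _) (zpow_mem h2 _)) _
  exact h3

theorem sk1_height (hHB : T_HB) (F M Ω : Type) [Field F] [NumberField F] [Field M]
    [Field Ω] [CharZero Ω] [Algebra F M] [Algebra M Ω] [Algebra F Ω] [IsScalarTower F M Ω]
    [IsAlgClosed Ω] [Algebra.IsAlgebraic F Ω] (h : M ≃ₐ[F] M) (β : M) (g : Ω) (hg : g ≠ 0)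
    (hga : ∃ (j : ℕ) (a : F), 0 < j ∧ g ^ j = algebraMap F Ω a) (i : ℕ) :
    ∃ g' : Ω, g' ≠ 0 ∧ (∃ (j : ℕ) (a : F), 0 < j ∧ g' ^ j = algebraMap F Ω a) ∧
      absLogHeight₁ (algebraMap M Ω (β * (h β) ^ i) * g') ≤
        (1 + i) * absLogHeight₁ (algebraMap M Ω β * g) := by
  have : IsAlgClosure F Ω := ⟨inferInstance, inferInstance⟩
  have : Normal F Ω := IsAlgClosure.normal F Ω
  have : Algebra.IsAlgebraic ℚ Ω := Algebra.IsAlgebraic.trans ℚ F Ω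
  obtain ⟨-, hmul, -, hpw, -, hconj, -⟩ := hHB Ω
  obtain ⟨j, a, hj, hga⟩ := hga
  set σ : Ω ≃ₐ[F] Ω := h.liftNormal Ω with hσ
  have hσβ : ∀ x : M, σ (algebraMap M Ω x) = algebraMap M Ω (h x) := fun x =>
    h.liftNormal_commutes Ω x
  refine ⟨g * (σ g) ^ i, mul_ne_zero hg (pow_ne_zero _ ?_), ⟨j, a * a ^ i, hj, ?_⟩, ?_⟩
  · rw [Ne, map_eq_zero]
    exact hg
  · rw [mul_pow, ← pow_mul, mul_comm i, pow_mul, ← map_pow, hga, AlgEquiv.commutes, map_mul,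
      map_pow]
  · have e : algebraMap M Ω (β * (h β) ^ i) * (g * (σ g) ^ i) =
        (algebraMap M Ω β * g) * (σ (algebraMap M Ω β * g)) ^ i := by
      rw [map_mul, map_mul, map_pow, hσβ, mul_pow]
      ring
    rw [e]
    refine (hmul _ _).trans ?_
    rw [hpw]
    have h3 := hconj (σ : Ω ≃+* Ω) (algebraMap M Ω β * g)
    have h4 : (σ : Ω ≃+* Ω) (algebraMap M Ω β * g) = σ (algebraMap M Ω β * g) := rfl
    rw [h4] at h3
    rw [h3]
    linarith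

open Classical in
theorem sk1_aux (hHB : T_HB) (hVC : T_VC) (hCM : T_CM) (F M Ω : Type) [Field F] [NumberField F]
    [Field M] [NumberField M]
    [Field Ω] [CharZero Ω] [Algebra F M] [Algebra M Ω] [Algebra F Ω] [IsScalarTower F M Ω]
    [FiniteDimensional F M] [IsAlgClosed Ω] [Algebra.IsAlgebraic F Ω]
    (p : ℕ) (hp : p.Prime) (r : ℕ) (γ : Fin r → F) (hγ : ∀ i, γ i ≠ 0)
    (C R T lam n0 n m n1 n2 N' K' : ℕ) (hT : T = p ^ ((r + 1) * R)) (hn2 : 1 ≤ n2)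
    (hn0 : R + lam + T ≤ n0) (hL : Lev C R n0 p n m n1 n2 N' K')
    (hζ : ∃ ζ : M, IsPrimitiveRoot ζ (p ^ n * N'))
    (hθ : ∀ i, ∃ θ : M, θ ^ (p ^ m * K') = algebraMap F M (γ i))
    (hadj : IntermediateField.adjoin F
      {z : M | z ^ (p ^ n * N') = 1 ∨ ∃ i, z ^ (p ^ m * K') = algebraMap F M (γ i)} = ⊤)
    (δ : ℝ)
    (hkey : ∀ β : M, β ≠ 0 → ∀ g : Ω, g ≠ 0 →
      (∃ (j : ℕ) (a : F), 0 < j ∧ g ^ j = algebraMap F Ω a) →
      absLogHeight₁ (algebraMap M Ω β * g) < δ →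
      ∃ t : M ≃ₐ[F] M, t ∈ VV F M γ p n1 K' ∧ (∃ ξ : M, ξ ^ (p ^ n2) = 1 ∧ t ξ ≠ ξ) ∧
        (t β) ^ (p ^ lam) = β ^ (p ^ lam))
    (β : M) (hβ : β ≠ 0) (g : Ω) (hg : g ≠ 0)
    (hga : ∃ (j : ℕ) (a : F), 0 < j ∧ g ^ j = algebraMap F Ω a)
    (hh : (T + 1) * absLogHeight₁ (algebraMap M Ω β * g) < δ)
    (h : M ≃ₐ[F] M) (hA : h ∈ AA F M γ (p ^ n * N') K') :
    ((h ^ (p ^ (n2 - 1))) β) ^ (p ^ R) = β ^ (p ^ R) := by
  obtain ⟨h0, h1, h2, h3, h4, h5, h6, h7⟩ := hL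
  have hpn : ∀ k : ℕ, p ^ k ≠ 0 := fun k => pow_ne_zero _ hp.ne_zero
  have hT1 : 1 ≤ T := by
    rw [hT]
    exact Nat.one_le_pow _ _ hp.pos
  have hRT : R ≤ T := by
    rw [hT]
    have e1 : R ≤ (r + 1) * R := Nat.le_mul_of_pos_left _ (Nat.succ_pos r)
    exact e1.trans (Nat.lt_pow_self hp.one_lt).le
  obtain ⟨hcard, hord⟩ := hVC F M p hp r γ hγ n m n1 N' K' h3 h4 (by omega) h6 h7 hζ hθ hadj
  have hcardT : Nat.card (VV F M γ p n1 K') ≤ T := by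
    refine hcard.trans ?_
    rw [hT]
    exact Nat.pow_le_pow_right hp.pos (Nat.mul_le_mul_left _ (by omega))
  have hhβ : h β ≠ 0 := by
    rw [Ne, map_eq_zero]
    exact hβ
  have : Algebra.IsAlgebraic ℚ Ω := Algebra.IsAlgebraic.trans ℚ F Ω
  obtain ⟨hnn, -, -, -, -, -, -⟩ := hHB Ω
  have hh0 := hnn (algebraMap M Ω β * g)
  -- an element for each exponent
  have hall : ∀ i : Fin (T + 1), ∃ t : VV F M γ p n1 K', (∃ ξ : M, ξ ^ (p ^ n2) = 1 ∧ t.1 ξ ≠ ξ) ∧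
      (t.1 (β * (h β) ^ (i : ℕ))) ^ (p ^ lam) = (β * (h β) ^ (i : ℕ)) ^ (p ^ lam) := by
    intro i
    obtain ⟨g', hg', hga', hle⟩ := sk1_height hHB F M Ω h β g hg hga i
    obtain ⟨t, ht1, ht2, ht3⟩ := hkey (β * (h β) ^ (i : ℕ)) (mul_ne_zero hβ (pow_ne_zero _ hhβ)) g'
      hg' hga' (by
        refine hle.trans_lt (lt_of_le_of_lt ?_ hh)
        apply mul_le_mul_of_nonneg_right _ hh0
        have : ((i : ℕ) : ℝ) ≤ T := by exact_mod_cast Nat.lt_succ_iff.1 i.2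
        linarith)
    exact ⟨⟨t, ht1⟩, ht2, ht3⟩
  choose f hf1 hf2 using hall
  -- pigeonhole
  obtain ⟨i, i', hii, hfi⟩ : ∃ i i' : Fin (T + 1), i < i' ∧ f i = f i' := by
    have hnot : ¬ Function.Injective f := by
      intro hinj
      have := Nat.card_le_card_of_injective f hinj
      rw [Nat.card_eq_fintype_card, Fintype.card_fin] at this
      omega
    rw [Function.Injective] at hnot
    push Not at hnot
    obtain ⟨a, b, hab, hne⟩ := hnot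
    rcases lt_or_gt_of_ne hne with hlt | hlt
    · exact ⟨a, b, hlt, hab⟩
    · exact ⟨b, a, hlt, hab.symm⟩
  set t : M ≃ₐ[F] M := (f i).1 with ht
  have htV : t ∈ VV F M γ p n1 K' := (f i).2
  set X : M := t β / β with hX
  set Y : M := t (h β) / h β with hY
  have hX0 : X ≠ 0 := div_ne_zero (by rw [Ne, map_eq_zero]; exact hβ) hβ
  have hY0 : Y ≠ 0 := div_ne_zero (by rw [Ne, map_eq_zero]; exact hhβ) hhβ
  have hXY : ∀ l : ℕ, (t (β * (h β) ^ l)) ^ (p ^ lam) = (β * (h β) ^ l) ^ (p ^ lam) →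
      (X * Y ^ l) ^ (p ^ lam) = 1 := by
    intro l hl
    have e : X * Y ^ l = t (β * (h β) ^ l) / (β * (h β) ^ l) := by
      rw [hX, hY, map_mul, map_pow, div_pow]
      field_simp
    rw [e, div_pow, hl, div_self]
    exact pow_ne_zero _ (mul_ne_zero hβ (pow_ne_zero _ hhβ))
  have e1 := hXY i (hf2 i)
  have e2 : (X * Y ^ (i' : ℕ)) ^ (p ^ lam) = 1 := by
    apply hXY i'
    have := hf2 i'
    rw [← hfi] at this
    exact this
  have hlt : (i : ℕ) < (i' : ℕ) := hii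
  obtain ⟨D, hD⟩ : ∃ D, (i' : ℕ) = i + D := ⟨i' - i, by omega⟩
  have hD1 : 1 ≤ D := by omega
  have hDT : D ≤ T := by
    have := i'.2
    omega
  have hYD : Y ^ (p ^ lam * D) = 1 := by
    rw [hD, pow_add, ← mul_assoc, mul_pow, e1, one_mul, ← pow_mul] at e2
    rw [mul_comm]
    exact e2
  have hXD : X ^ (p ^ lam * D) = 1 := by
    have e3 : (X * Y ^ (i : ℕ)) ^ (p ^ lam * D) = 1 := by
      rw [pow_mul, e1, one_pow]
    rw [mul_pow, ← pow_mul Y, mul_comm (i : ℕ), pow_mul Y, hYD, one_pow, mul_one] at e3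
    exact e3
  -- the `p`-part of `D`
  obtain ⟨e, D', hD', hDe⟩ : ∃ e D', ¬ p ∣ D' ∧ D = p ^ e * D' :=
    Nat.exists_eq_pow_mul_and_not_dvd (by omega) p hp.ne_one
  have heT : e ≤ T := by
    have h8 : D' ≠ 0 := by
      rintro rfl
      exact hD' (dvd_zero p)
    have h9 : e < p ^ e := Nat.lt_pow_self hp.one_lt
    have h10 : p ^ e ≤ D := by
      rw [hDe]
      exact Nat.le_mul_of_pos_right _ (Nat.pos_of_ne_zero h8)
    omega
  have hfix : ∀ y : M, y ^ (p ^ lam * D) = 1 → t y = y := by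
    intro y hy
    apply fix_root F M p hp r γ n1 K' t htV (lam + e) D' (by omega) hD' y
    rw [pow_add, mul_assoc, ← hDe]
    exact hy
  have hord' := hord t htV
  have hpowR : ∀ x y : M, x ≠ 0 → t x = y * x → t y = y → y ^ (p ^ R) = 1 := by
    intro x y hx hxy hy
    have hk : ∀ k : ℕ, (t ^ k) x = y ^ k * x := by
      intro k
      induction k with
      | zero => simp
      | succ k ih => rw [pow_succ', AlgEquiv.mul_apply, ih, map_mul, map_pow, hy, hxy, pow_succ]; ring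
    have h8 := hk (p ^ (n - n1))
    rw [hord'] at h8
    have h9 : y ^ (p ^ (n - n1)) = 1 := by
      have h10 : (1 : M) * x = y ^ (p ^ (n - n1)) * x := by
        rw [one_mul]
        exact h8
      exact (mul_right_cancel₀ hx h10).symm
    have : p ^ R = p ^ (n - n1) * p ^ (R - (n - n1)) := by
      rw [← pow_add]
      congr 1
      omega
    rw [this, pow_mul, h9, one_pow]
  have hXR : X ^ (p ^ R) = 1 := by
    refine hpowR β X hβ ?_ (hfix X hXD)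
    rw [hX, div_mul_cancel₀ _ hβ]
  have hYR : Y ^ (p ^ R) = 1 := by
    refine hpowR (h β) Y hhβ ?_ (hfix Y hYD)
    rw [hY, div_mul_cancel₀ _ hhβ]
  -- the stabiliser of `b`
  set b : M := β ^ (p ^ R) with hb
  have htb : t b = b := by
    rw [hb, map_pow]
    have : t β = X * β := by rw [hX, div_mul_cancel₀ _ hβ]
    rw [this, mul_pow, hXR, one_mul]
  have hthb : t (h b) = h b := by
    rw [hb, map_pow, map_pow]
    have : t (h β) = Y * h β := by rw [hY, div_mul_cancel₀ _ hhβ]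
    rw [this, mul_pow, hYR, one_mul]
  -- the exponent
  have hN0 : N' ≠ 0 := by
    rintro rfl
    exact h6 (dvd_zero p)
  obtain ⟨ζ0, hζ0⟩ := hζ
  have hζ1 : IsPrimitiveRoot (ζ0 ^ N') (p ^ n) := by
    refine hζ0.pow (Nat.pos_of_ne_zero (mul_ne_zero (hpn n) hN0)) ?_
    ring
  set ζ : M := ζ0 ^ N' with hζd
  have : NeZero (p ^ n) := ⟨hpn n⟩
  have htζ : (t ζ) ^ (p ^ n) = 1 := by
    rw [← map_pow, hζ1.pow_eq_one, map_one]
  obtain ⟨u0, -, hu0⟩ := hζ1.eq_pow_of_pow_eq_one htζ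
  have hu : ∀ z : M, z ^ (p ^ n) = 1 → t z = z ^ (u0 + p ^ n) := by
    intro z hz
    obtain ⟨k, -, hk⟩ := hζ1.eq_pow_of_pow_eq_one hz
    rw [pow_add, hz, mul_one, ← hk, map_pow, ← hu0]
    exact pow_right_comm ζ u0 k
  obtain ⟨hCM1, hCM2⟩ := hCM F M p hp r γ hγ n m n1 N' K' h4 h6 h7 hadj t htV h hA _ hu
  obtain ⟨v, hv⟩ : ∃ v, u0 + p ^ n = v + 1 := ⟨u0 + p ^ n - 1, by
    have := Nat.pos_of_ne_zero (hpn n)
    omega⟩
  rw [hv] at hCM1 hu
  have hvb : (h ^ v) b = b := by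
    have h8 : (t * h * t⁻¹) b = h b := by
      have h9 : t⁻¹ b = b := by
        conv_lhs => rw [← htb]
        rw [← AlgEquiv.mul_apply, inv_mul_cancel]
        rfl
      rw [AlgEquiv.mul_apply, h9, AlgEquiv.mul_apply, hthb]
    rw [hCM1, pow_succ', AlgEquiv.mul_apply] at h8
    exact h.injective h8
  have hmb : (h ^ (p ^ m)) b = b := by
    rw [hCM2]
    rfl
  obtain ⟨ξ, hξ, htξ⟩ := hf1 i
  have hvn : ¬ p ^ n2 ∣ v := by
    rintro ⟨c, hc⟩
    apply htξ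
    have h8 : ξ ^ (p ^ n) = 1 := by
      have : p ^ n = p ^ n2 * p ^ (n - n2) := by
        rw [← pow_add]
        congr 1
        omega
      rw [this, pow_mul, hξ, one_pow]
    have h9 := hu ξ h8
    rw [pow_succ, hc, pow_mul, hξ, one_pow, one_mul] at h9
    exact h9
  have hgcd : Nat.gcd v (p ^ m) ∣ p ^ (n2 - 1) := by
    obtain ⟨a, ha, hga⟩ := (Nat.dvd_prime_pow hp).1 (Nat.gcd_dvd_right v (p ^ m))
    rw [hga]
    apply pow_dvd_pow
    by_contra hcon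
    apply hvn
    have h8 : n2 ≤ a := by omega
    exact (pow_dvd_pow p h8).trans (hga ▸ Nat.gcd_dvd_left v (p ^ m))
  have hfin : (h ^ (p ^ (n2 - 1))) b = b := stab_gcd b h v (p ^ m) (p ^ (n2 - 1)) hvb hmb hgcd
  rw [← map_pow]
  exact hfin

theorem pf_SK1 : T_HB → T_LVB → T_KEY → T_VC → T_CM → T_SK1 := by
  intro hHB hLVB hKEY hVC hCM F Ω _ _ _ _ _ _ _ p hp r γ hγ
  obtain ⟨C, hC⟩ := hKEY F Ω p hp r γ hγ
  refine ⟨C, fun R => ?_⟩
  obtain ⟨δ, lam, n0, hδ, hkey⟩ := hC R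
  refine ⟨δ / (p ^ ((r + 1) * R) + 1), n0 + (R + lam + p ^ ((r + 1) * R)), ?_, ?_⟩
  · have : (0 : ℝ) < (p : ℝ) := by exact_mod_cast hp.pos
    positivity
  intro n m n1 n2 N' K' hL hn2 β hβ g hg hga hh h hA
  have h6 := hL.h6
  have h7 := hL.h7
  have h8 := hL.h0
  have hN0 : N' ≠ 0 := by
    rintro rfl
    exact h6 (dvd_zero p)
  have hK0 : K' ≠ 0 := by
    rintro rfl
    exact hN0 (Nat.eq_zero_of_zero_dvd h7)
  obtain ⟨hfd, hgal, hζ, hθ, hadj, -⟩ := hLVB F Ω r γ hγ (p ^ n * N') (p ^ m * K')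
    (Nat.pos_of_ne_zero (mul_ne_zero (pow_ne_zero _ hp.ne_zero) hN0))
    (Nat.pos_of_ne_zero (mul_ne_zero (pow_ne_zero _ hp.ne_zero) hK0))
  have := hfd
  have := hgal
  have : FiniteDimensional ℚ (Lv F Ω γ (p ^ n * N') (p ^ m * K')) :=
    FiniteDimensional.trans ℚ F _
  have : NumberField (Lv F Ω γ (p ^ n * N') (p ^ m * K')) := {}
  have hL1 : Lev C R n0 p n m n1 n2 N' K' :=
    ⟨by omega, hL.h1, hL.h2, hL.h3, hL.h4, hL.h5, hL.h6, hL.h7⟩
  have hL2 : Lev C R (R + lam + p ^ ((r + 1) * R)) p n m n1 n2 N' K' :=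
    ⟨by omega, hL.h1, hL.h2, hL.h3, hL.h4, hL.h5, hL.h6, hL.h7⟩
  refine sk1_aux hHB hVC hCM F (Lv F Ω γ (p ^ n * N') (p ^ m * K')) Ω p hp r γ hγ C R _ lam
    (R + lam + p ^ ((r + 1) * R)) n m n1 n2 N' K' rfl hn2 le_rfl hL2 hζ hθ hadj δ
    (hkey n m n1 n2 N' K' hL1) β hβ g hg hga ?_ h hA
  have h9 : (0 : ℝ) < ((p : ℝ) ^ ((r + 1) * R) + 1) := by
    have : (0 : ℝ) < (p : ℝ) := by exact_mod_cast hp.pos
    positivity
  rw [lt_div_iff₀ h9, mul_comm] at hh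
  push_cast
  exact hh

end Pool.Agent.H30.RD
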